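import Pool.Agent.H792Z.MKDefs
import Pool.Agent.H792Z.Main

namespace Pool.Agent.Results.MP_f09850_nt.AFull

open Pool.Agent.H792Z.MK

theorem result : ∀ n : ℕ, 1 ≤ n → ∀ τ : ℝ, 1 < τ →
    ((∃ ξ : ℝ, wn n ξ = ((τ * ((n : ℝ) + 1) - 1 : ℝ) : EReal) ∧
        ∀ b : ℕ, 2 ≤ b → SimplyNormal b ξ) ∧
      (∃ ξ : ℝ, wn n ξ = ((τ * ((n : ℝ) + 1) - 1 : ℝ) : EReal) ∧
        ∀ b : ℕ, 2 ≤ b → ¬ SimplyNormal b ξ)) ∧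
    ((∃ ξ : ℝ, wnStar n ξ = ((τ * ((n : ℝ) + 1) - 1 : ℝ) : EReal) ∧
        ∀ b : ℕ, 2 ≤ b → SimplyNormal b ξ) ∧
      (∃ ξ : ℝ, wnStar n ξ = ((τ * ((n : ℝ) + 1) - 1 : ℝ) : EReal) ∧
        ∀ b : ℕ, 2 ≤ b → ¬ SimplyNormal b ξ)) := by
  intro n hn τ hτ
  have hw : (n : ℝ) < τ * ((n : ℝ) + 1) - 1 := by
    have : (0 : ℝ) ≤ n := Nat.cast_nonneg n
    nlinarith
  obtain ⟨x, a1, a2, a3⟩ := exists_normal n hn _ hw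
  obtain ⟨y, b1, b2, b3⟩ := exists_abnormal n hn _ hw
  exact ⟨⟨⟨x, a1, a3⟩, ⟨y, b1, b3⟩⟩, ⟨⟨x, a2, a3⟩, ⟨y, b2, b3⟩⟩⟩

end Pool.Agent.Results.MP_f09850_nt.AFull
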